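import Pool.Agent.W564.MM.Defs

/-! Part BAS of project MM: basic facts on the standard map. -/

set_option autoImplicit false

open MeasureTheory Filter Topology Finset

namespace Pool.Agent.W334.MM

open Pool.Agent.W564.MM

theorem f1 (x : ℝ) : (fourier 1 (x : T1) : ℂ) = Complex.exp (((2 * Real.pi * x : ℝ) : ℂ) * Complex.I) := by
  rw [fourier_coe_apply]
  congr 1
  push_cast
  ring

theorem sn_eq (x : ℝ) : sn (x : T1) = Real.sin (2 * Real.pi * x) := by
  unfold sn
  rw [f1, Complex.exp_ofReal_mul_I_im]

theorem cs_eq (x : ℝ) : cs (x : T1) = Real.cos (2 * Real.pi * x) := by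
  unfold cs
  rw [f1, Complex.exp_ofReal_mul_I_re]

theorem tay_nonneg (u v : ℝ) (hv : 0 ≤ v) :
    |Real.sin (u + v) - Real.sin u - v * Real.cos u| ≤ v ^ 2 / 2 := by
  have h := image_norm_le_of_norm_deriv_right_le_deriv_boundary
    (f := fun v => Real.sin (u + v) - Real.sin u - v * Real.cos u)
    (f' := fun v => Real.cos (u + v) - Real.cos u) (a := 0) (b := v)
    (by fun_prop)
    (fun x _ => by
      have h1 : HasDerivAt (fun v => Real.sin (u + v)) (Real.cos (u + x) * 1) x :=
        (Real.hasDerivAt_sin (u + x)).comp x ((hasDerivAt_id x).const_add u)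
      have h2 : HasDerivAt (fun v : ℝ => v * Real.cos u) (1 * Real.cos u) x :=
        (hasDerivAt_id x).mul_const _
      have h3 := (h1.sub_const (Real.sin u)).sub h2
      rw [mul_one, one_mul] at h3
      exact h3.hasDerivWithinAt)
    (B := fun v => v ^ 2 / 2) (B' := fun v => v)
    (by simp)
    (fun x => by
      have := ((hasDerivAt_pow 2 x).div_const 2)
      simpa using this)
    (fun x hx => by
      rw [Real.norm_eq_abs]
      have := Real.abs_cos_sub_cos_le (u + x) u
      rw [add_sub_cancel_left, abs_of_nonneg hx.1] at this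
      exact this)
    (Set.right_mem_Icc.2 hv)
  rw [Real.norm_eq_abs] at h
  exact h

theorem tay (u v : ℝ) : |Real.sin (u + v) - Real.sin u - v * Real.cos u| ≤ v ^ 2 / 2 := by
  rcases le_total 0 v with hv | hv
  · exact tay_nonneg u v hv
  · have h := tay_nonneg (-u) (-v) (by linarith)
    have e : Real.sin (-u + -v) - Real.sin (-u) - -v * Real.cos (-u) =
        -(Real.sin (u + v) - Real.sin u - v * Real.cos u) := by
      rw [← neg_add, Real.sin_neg, Real.sin_neg, Real.cos_neg]
      ring
    rw [e, abs_neg, neg_sq] at h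
    exact h

theorem sn_cont : Continuous sn := by
  unfold sn
  exact Complex.continuous_im.comp (map_continuous (fourier 1))

theorem coe_cont : Continuous (fun x : ℝ => (x : T1)) := AddCircle.continuous_mk' 1

theorem it (a : ℝ) (i : ℕ) (p : T1 × T1) : (SM a)^[i] p = (xx a (i + 1) p, xx a i p) := by
  induction i with
  | zero => simp [xx]
  | succ i ih =>
    rw [Function.iterate_succ_apply', ih]
    rfl

theorem cont (a : ℝ) (i : ℕ) : Continuous (xx a i) ∧ Continuous (xx a (i + 1)) := by
  induction i with
  | zero => exact ⟨continuous_snd, continuous_fst⟩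
  | succ i ih =>
    refine ⟨ih.2, ?_⟩
    have h1 : Continuous (fun p => ((a * sn (xx a (i + 1) p) : ℝ) : T1)) :=
      coe_cont.comp (continuous_const.mul (sn_cont.comp ih.2))
    exact ((ih.2.nsmul 2).sub ih.1).add h1

theorem mp (a : ℝ) : MeasurePreserving (SM a) volume volume := by
  have hh : Continuous (fun x : T1 => ((a * sn x : ℝ) : T1)) :=
    coe_cont.comp (continuous_const.mul sn_cont)
  have hg : Continuous (Function.uncurry (fun (x y : T1) => (2 • x + ((a * sn x : ℝ) : T1)) - y)) := by
    have : Continuous (fun p : T1 × T1 => (2 • p.1 + ((a * sn p.1 : ℝ) : T1)) - p.2) :=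
      ((continuous_fst.nsmul 2).add (hh.comp continuous_fst)).sub continuous_snd
    exact this
  have h1 : MeasurePreserving (fun p : T1 × T1 => (p.1, (2 • p.1 + ((a * sn p.1 : ℝ) : T1)) - p.2))
      ((volume : Measure T1).prod volume) ((volume : Measure T1).prod volume) :=
    (MeasurePreserving.id (volume : Measure T1)).skew_product hg.measurable
      (Filter.Eventually.of_forall fun x =>
        (Measure.measurePreserving_sub_left (volume : Measure T1) _).map_eq)
  have h2 := (Measure.measurePreserving_swap (μ := (volume : Measure T1))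
    (ν := (volume : Measure T1))).comp h1
  have e : SM a = Prod.swap ∘ (fun p : T1 × T1 => (p.1, (2 • p.1 + ((a * sn p.1 : ℝ) : T1)) - p.2)) := by
    funext p
    simp only [SM, Function.comp, Prod.swap]
    congr 1
    abel
  rw [e]
  exact h2

theorem prob : IsProbabilityMeasure (volume : Measure T1) := ⟨UnitAddCircle.measure_univ⟩

theorem mpi (a : ℝ) (i : ℕ) :
    MeasurePreserving (xx a i) (volume : Measure (T1 × T1)) volume := by
  have := prob
  rcases i with _ | i
  · exact measurePreserving_snd (μ := (volume : Measure T1)) (ν := (volume : Measure T1))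
  · have h1 : MeasurePreserving (Prod.fst : T1 × T1 → T1) volume volume :=
      measurePreserving_fst (μ := (volume : Measure T1)) (ν := (volume : Measure T1))
    have h2 := h1.comp ((mp a).iterate i)
    have e : xx a (i + 1) = Prod.fst ∘ (SM a)^[i] := by
      funext p
      rw [Function.comp, it]
    rw [e]
    exact h2

theorem bas : S_BAS := by
  refine ⟨sn_eq, cs_eq, ?_, it, fun a i => (cont a i).1, mp, mpi⟩
  intro x d
  obtain ⟨x, rfl⟩ := QuotientAddGroup.mk_surjective x
  have h := tay (2 * Real.pi * x) (2 * Real.pi * d)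
  have e1 : ((x : T1) + (d : T1)) = ((x + d : ℝ) : T1) := rfl
  show |sn ((x : T1) + (d : T1)) - sn (x : T1) - 2 * Real.pi * cs (x : T1) * d| ≤ _
  rw [e1, sn_eq, sn_eq, cs_eq]
  have e2 : 2 * Real.pi * (x + d) = 2 * Real.pi * x + 2 * Real.pi * d := by ring
  rw [e2]
  have e3 : 2 * Real.pi * Real.cos (2 * Real.pi * x) * d =
    2 * Real.pi * d * Real.cos (2 * Real.pi * x) := by ring
  rw [e3]
  refine h.trans (le_of_eq ?_)
  ring

end Pool.Agent.W334.MM
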